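import Pool.Agent.Helper46.GB2.Shift

open Set MeasureTheory Filter Topology

namespace GB

theorem norm_fr2_le (α : ℝ) (v : ℤ × ℤ) : ‖fr2 α v‖ ≤ 1 := by
  have h1 := abs_sub_round ((v.1 : ℝ) * α)
  have h2 := abs_sub_round ((v.2 : ℝ) * α)
  have h3 : fr2 α v = (((v.1 : ℝ) * α - round ((v.1 : ℝ) * α) : ℝ) : ℂ) +
      (((v.2 : ℝ) * α - round ((v.2 : ℝ) * α) : ℝ) : ℂ) * Complex.I := by
    apply Complex.ext <;> simp [fr2]
  rw [h3]
  refine (norm_add_le _ _).trans ?_
  rw [norm_mul, Complex.norm_I, mul_one, Complex.norm_real, Complex.norm_real, Real.norm_eq_abs,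
    Real.norm_eq_abs]
  linarith

/-- the base point of a mesh cell -/
noncomputable def bb (L : ℕ) (q h : ℂ) (s : ℤ × ℤ) : ℂ := q * (h + gi s / (L : ℂ))

theorem mb_sub_bb (α : ℝ) {L : ℕ} (hL : 1 ≤ L) {q : ℂ} (hq : ‖q‖ = 1) (h : ℂ) (s v : ℤ × ℤ) :
    ‖mb α L q h s v - bb L q h s‖ ≤ 1 / L := by
  have hL' : (0 : ℝ) < L := by exact_mod_cast hL
  have : mb α L q h s v - bb L q h s = q * (fr2 α v / (L : ℂ)) := by
    unfold mb bb; ring
  rw [this, norm_mul, hq, one_mul, norm_div, Complex.norm_natCast]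
  gcongr
  exact norm_fr2_le α v

/-- separation of the base points -/
theorem one_le_norm_gi {s : ℤ × ℤ} (hs : s ≠ 0) : 1 ≤ ‖gi s‖ := by
  by_cases h : s.1 = 0
  · have h2 : s.2 ≠ 0 := fun h2 => hs (Prod.ext h h2)
    have h3 := Complex.abs_im_le_norm (gi s)
    have h4 : (1 : ℝ) ≤ |(gi s).im| := by
      simp only [gi]
      exact_mod_cast Int.one_le_abs h2
    linarith
  · have h3 := Complex.abs_re_le_norm (gi s)
    have h4 : (1 : ℝ) ≤ |(gi s).re| := by
      simp only [gi]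
      exact_mod_cast Int.one_le_abs h
    linarith

theorem gi_sub (v w : ℤ × ℤ) : gi (v - w) = gi v - gi w := by
  apply Complex.ext <;> simp [gi]

/-- number of mesh cells close to a set -/
theorem card_bad {L : ℕ} (hL : 1 ≤ L) {q : ℂ} (hq : ‖q‖ = 1) (h x₀ : ℂ) (E : Set ℂ)
    (F : Finset (ℤ × ℤ)) (hF : ∀ s ∈ F, ∃ z ∈ E, ‖bb L q h s + q * x₀ - z‖ ≤ 1 / L) :
    (F.card : ENNReal) * volume (Metric.ball (0 : ℂ) (1 / (2 * L))) ≤
      volume (Metric.cthickening (2 / (L : ℝ)) E) := by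
  have hL' : (0 : ℝ) < L := by exact_mod_cast hL
  have hdisj : (F : Set (ℤ × ℤ)).PairwiseDisjoint
      (fun s => Metric.ball (bb L q h s + q * x₀) (1 / (2 * (L : ℝ)))) := by
    intro s hs s' hs' hne
    apply Metric.ball_disjoint_ball
    have h1 : dist (bb L q h s + q * x₀) (bb L q h s' + q * x₀) = ‖gi (s - s')‖ / L := by
      rw [dist_eq_norm]
      have : bb L q h s + q * x₀ - (bb L q h s' + q * x₀) = q * (gi (s - s') / (L : ℂ)) := by
        rw [gi_sub]; unfold bb; ring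
      rw [this, norm_mul, hq, one_mul, norm_div, Complex.norm_natCast]
    rw [h1]
    have h2 := one_le_norm_gi (s := s - s') (sub_ne_zero.2 hne)
    have h3 : 1 / (2 * (L : ℝ)) + 1 / (2 * (L : ℝ)) = 1 / L := by field_simp; norm_num
    rw [h3]
    gcongr
  have h1 := measure_biUnion_finset (μ := (volume : Measure ℂ)) hdisj
    (fun s _ => Metric.isOpen_ball.measurableSet)
  have h2 : ∀ s : ℤ × ℤ, volume (Metric.ball (bb L q h s + q * x₀) (1 / (2 * (L : ℝ)))) =
      volume (Metric.ball (0 : ℂ) (1 / (2 * (L : ℝ)))) := by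
    intro s
    rw [Complex.volume_ball, Complex.volume_ball]
  simp_rw [h2] at h1
  rw [Finset.sum_const, nsmul_eq_mul] at h1
  rw [← h1]
  apply measure_mono
  intro y hy
  simp only [mem_iUnion] at hy
  obtain ⟨s, hs, hy⟩ := hy
  obtain ⟨z, hz, hz'⟩ := hF s hs
  apply Metric.mem_cthickening_of_dist_le y z _ _ hz
  have h3 : dist y z ≤ dist y (bb L q h s + q * x₀) + dist (bb L q h s + q * x₀) z :=
    dist_triangle _ _ _
  rw [dist_eq_norm (bb L q h s + q * x₀) z] at h3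
  have h4 : dist y (bb L q h s + q * x₀) < 1 / (2 * L) := hy
  have h5 : 1 / (2 * (L : ℝ)) ≤ 1 / L := by
    apply one_div_le_one_div_of_le hL'
    linarith
  have h6 : 1 / (L : ℝ) + 1 / L = 2 / L := by ring
  linarith

/-- number of mesh cells close to a compact null set -/
theorem exists_card_bad {E : Set ℂ} (hE : IsCompact E) (hE0 : volume E = 0) {μ : ℝ} (hμ : 0 < μ) :
    ∃ n₀ : ℕ, ∀ L : ℕ, n₀ ≤ L → ∀ q : ℂ, ‖q‖ = 1 → ∀ h x₀ : ℂ, ∀ F : Finset (ℤ × ℤ),
      (∀ s ∈ F, ∃ z ∈ E, ‖bb L q h s + q * x₀ - z‖ ≤ 1 / L) → (F.card : ℝ) ≤ μ * (L : ℝ) ^ 2 := by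
  have h1 := tendsto_measure_cthickening_of_isCompact (μ := (volume : Measure ℂ)) hE
  rw [hE0] at h1
  have hμ' : (0 : ENNReal) < ENNReal.ofReal (μ / 4) := by
    rw [ENNReal.ofReal_pos]; positivity
  have h2 := (tendsto_order.1 h1).2 _ hμ'
  rw [Metric.eventually_nhds_iff] at h2
  obtain ⟨δ, hδ, h2⟩ := h2
  obtain ⟨n₀, hn₀⟩ := exists_nat_gt (2 / δ)
  refine ⟨max 1 n₀, fun L hL q hq h x₀ F hF => ?_⟩
  have hL1 : 1 ≤ L := (le_max_left _ _).trans hL
  have hL2 : n₀ ≤ L := (le_max_right _ _).trans hL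
  have hL' : (0 : ℝ) < L := by exact_mod_cast hL1
  have h3 := card_bad hL1 hq h x₀ E F hF
  have h4 : volume (Metric.cthickening (2 / (L : ℝ)) E) < ENNReal.ofReal (μ / 4) := by
    apply h2
    rw [Real.dist_eq, sub_zero, abs_of_pos (by positivity)]
    rw [div_lt_iff₀ hL']
    rw [div_lt_iff₀ hδ] at hn₀
    have : (n₀ : ℝ) ≤ L := by exact_mod_cast hL2
    nlinarith
  have h5 := h3.trans h4.le
  rw [Complex.volume_ball] at h5
  have h6 : (F.card : ENNReal) * (ENNReal.ofReal (1 / (2 * (L : ℝ))) ^ 2 * (NNReal.pi : ENNReal)) =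
      ENNReal.ofReal (F.card * ((1 / (2 * (L : ℝ))) ^ 2 * Real.pi)) := by
    rw [ENNReal.ofReal_mul (by positivity), ENNReal.ofReal_mul (by positivity),
      ENNReal.ofReal_pow (by positivity), ENNReal.ofReal_natCast]
    congr 2
    rw [← NNReal.coe_real_pi, ENNReal.ofReal_coe_nnreal]
  rw [h6, ENNReal.ofReal_le_ofReal_iff (by positivity)] at h5
  have h7 : (F.card : ℝ) * ((1 / (2 * (L : ℝ))) ^ 2 * Real.pi) =
      (F.card : ℝ) * Real.pi / (4 * L ^ 2) := by
    field_simp; ring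
  rw [h7, div_le_iff₀ (by positivity)] at h5
  have h8 := Real.pi_gt_three
  have h9 : (0 : ℝ) ≤ F.card := by positivity
  nlinarith

theorem inter_frontier {S D : Set ℂ} (hS : IsPreconnected S) (h1 : (S ∩ D).Nonempty)
    (h2 : (S ∩ Dᶜ).Nonempty) : (S ∩ frontier D).Nonempty := by
  by_contra hcon
  rw [not_nonempty_iff_eq_empty] at hcon
  have hsub : S ⊆ interior D ∪ interior Dᶜ := by
    intro x hx
    rw [← compl_frontier_eq_union_interior]
    intro hx'
    have : x ∈ S ∩ frontier D := ⟨hx, hx'⟩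
    rw [hcon] at this
    exact this
  obtain ⟨x, hx, hxD⟩ := h1
  obtain ⟨y, hy, hyD⟩ := h2
  have hx' : x ∈ interior D := by
    rcases hsub hx with h | h
    · exact h
    · exact absurd hxD (interior_subset h)
  have hy' : y ∈ interior Dᶜ := by
    rcases hsub hy with h | h
    · exact absurd (interior_subset h) hyD
    · exact h
  obtain ⟨z, _, hz1, hz2⟩ := hS _ _ isOpen_interior isOpen_interior hsub ⟨x, hx, hx'⟩ ⟨y, hy, hy'⟩
  exact (interior_subset hz2) (interior_subset hz1)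

/-- no change of the indicator away from the frontier -/
theorem indicator_const {D : Set ℂ} {x y : ℂ} {r : ℝ} (hxy : ‖x - y‖ ≤ r)
    (h : ∀ z ∈ frontier D, r < ‖x - z‖) :
    D.indicator (fun _ => (1 : ℝ)) y = D.indicator (fun _ => (1 : ℝ)) x := by
  have hseg : IsPreconnected (segment ℝ x y) := (convex_segment x y).isPreconnected
  have hmem : x ∈ D ↔ y ∈ D := by
    by_contra hcon
    have h1 : (segment ℝ x y ∩ frontier D).Nonempty := by
      rw [not_iff] at hcon
      by_cases hx : x ∈ D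
      · have hy : y ∉ D := by
          intro hy; exact (hcon.2 hy) hx
        exact inter_frontier hseg ⟨x, left_mem_segment _ _ _, hx⟩
          ⟨y, right_mem_segment _ _ _, hy⟩
      · have hy : y ∈ D := hcon.1 hx
        exact inter_frontier hseg ⟨y, right_mem_segment _ _ _, hy⟩
          ⟨x, left_mem_segment _ _ _, hx⟩
    obtain ⟨z, hz, hz'⟩ := h1
    have h2 := h z hz'
    have h3 : dist x z ≤ dist x y := by
      have := segment_subset_closedBall_left x y hz
      rw [Metric.mem_closedBall, dist_comm] at this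
      exact this
    rw [dist_eq_norm, dist_eq_norm] at h3
    linarith
  by_cases hx : x ∈ D
  · rw [indicator_of_mem hx, indicator_of_mem (hmem.1 hx)]
  · rw [indicator_of_notMem hx, indicator_of_notMem (fun hy => hx (hmem.2 hy))]

/-- derivative at the base point -/
noncomputable def mdb (L : ℕ) (q η : ℂ) (κ : ℝ) (b : ℂ) (v : ℤ × ℤ) : ℂ :=
  Complex.I * (κ : ℂ) * b + q * (η + gi v / (L : ℂ))

theorem mdb_eq (L : ℕ) {q : ℂ} (hq : ‖q‖ = 1) (η : ℂ) (κ : ℝ) (b : ℂ) (v : ℤ × ℤ) :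
    mdb L q η κ b v = q * (gi v / (L : ℂ) + (η + q⁻¹ * (Complex.I * (κ : ℂ) * b))) := by
  have hq0 : q ≠ 0 := by
    intro h0; rw [h0, norm_zero] at hq; norm_num at hq
  unfold mdb
  field_simp
  ring

theorem md_sub (α : ℝ) {L : ℕ} (hL : 1 ≤ L) {q : ℂ} (hq : ‖q‖ = 1) (h η : ℂ) (κ : ℝ)
    (s v : ℤ × ℤ) : ‖md α L q h η κ s v - mdb L q η κ (bb L q h s) v‖ ≤ |κ| / L := by
  have : md α L q h η κ s v - mdb L q η κ (bb L q h s) v =
      Complex.I * (κ : ℂ) * (mb α L q h s v - bb L q h s) := by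
    unfold md mdb; ring
  rw [this, norm_mul, norm_mul, Complex.norm_I, one_mul, Complex.norm_real, Real.norm_eq_abs]
  calc |κ| * ‖mb α L q h s v - bb L q h s‖ ≤ |κ| * (1 / L) := by
        gcongr
        exact mb_sub_bb α hL hq h s v
    _ = |κ| / L := by ring

theorem norm_move {ρ' : ℂ} (hρ' : ‖ρ'‖ = 1) (m e : ℂ) : |‖m‖ - ‖ρ' * m + e‖| ≤ ‖e‖ := by
  have h1 : ‖ρ' * m‖ = ‖m‖ := by rw [norm_mul, hρ', one_mul]
  rw [← h1]
  refine (abs_norm_sub_norm_le _ _).trans ?_
  have : ρ' * m - (ρ' * m + e) = -e := by ring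
  rw [this, norm_neg]

theorem term_le {R : ℝ} (hR : 0 < R) {ρ' : ℂ} (hρ' : ‖ρ'‖ = 1) (m e : ℂ) :
    |bump R m - bump R (ρ' * m + e)| ≤ ‖e‖ / R :=
  (bump_sub_le hR _ _).trans (by gcongr; exact norm_move hρ' m e)

theorem term_zero {R : ℝ} (hR : 0 < R) {ρ' : ℂ} (hρ' : ‖ρ'‖ = 1) {m e : ℂ}
    (h : R + ‖e‖ ≤ ‖m‖) : bump R m - bump R (ρ' * m + e) = 0 := by
  have h1 := norm_move hρ' m e
  rw [abs_le] at h1
  rw [bump_eq_zero hR (by linarith [norm_nonneg e]), bump_eq_zero hR (by linarith), sub_zero]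

/-- number of cells in the derivative direction -/
theorem card_v {R L : ℕ} (hL : 1 ≤ L) {q : ℂ} (hq : ‖q‖ = 1) (η : ℂ) (κ : ℝ) (b : ℂ) {C : ℝ}
    (hC : 0 ≤ C) (hR : C + 3 ≤ R) (F : Finset (ℤ × ℤ))
    (hF : ∀ v ∈ F, ‖mdb L q η κ b v‖ ≤ R + C + 2) : (F.card : ℝ) ≤ 16 * (L : ℝ) ^ 2 * R ^ 2 := by
  have hL' : (0 : ℝ) < L := by exact_mod_cast hL
  have hL1 : (1 : ℝ) ≤ L := by exact_mod_cast hL
  have hLc : (L : ℂ) ≠ 0 := by exact_mod_cast hL'.ne'
  have h1 := card_near ((L : ℂ) * (η + q⁻¹ * (Complex.I * (κ : ℂ) * b))) (L * (R + C + 2))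
    (by positivity) F (by
      intro v hv
      have h2 := hF v hv
      rw [mdb_eq L hq, norm_mul, hq, one_mul] at h2
      have h3 : gi v + (L : ℂ) * (η + q⁻¹ * (Complex.I * (κ : ℂ) * b)) =
          (L : ℂ) * (gi v / (L : ℂ) + (η + q⁻¹ * (Complex.I * (κ : ℂ) * b))) := by
        field_simp
      rw [h3, norm_mul, Complex.norm_natCast]
      gcongr)
  refine h1.trans ?_
  have h4 : 2 * ((L : ℝ) * (R + C + 2)) + 1 ≤ 4 * L * R := by nlinarith
  have h5 : 0 ≤ 2 * ((L : ℝ) * (R + C + 2)) + 1 := by positivity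
  calc (2 * ((L : ℝ) * (R + C + 2)) + 1) ^ 2 ≤ (4 * L * R) ^ 2 := by gcongr
    _ = 16 * (L : ℝ) ^ 2 * R ^ 2 := by ring

/-- crude bound for one cell -/
theorem inner_bad (α : ℝ) (D : Set ℂ) {ρ' : ℂ} (hρ' : ‖ρ'‖ = 1) (d' : ℂ) (κ' : ℝ) {C : ℝ}
    (hC : 0 ≤ C) {R L : ℕ} (hL : 1 ≤ L) (hR : C + 3 ≤ R) {κ : ℝ} (hκ : |κ| ≤ L) {q : ℂ}
    (hq : ‖q‖ = 1) (h η x₀ : ℂ) (s : ℤ × ℤ)
    (hDC : ∀ v, mb α L q h s v + q * x₀ ∈ D →
      ‖Complex.I * (κ' : ℂ) * (ρ' * mb α L q h s v) + d'‖ ≤ C) (B : ℕ) :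
    |∑ v ∈ boxZ B, (bump R (md α L q h η κ s v) -
        bump R (ρ' * md α L q h η κ s v + Complex.I * (κ' : ℂ) * (ρ' * mb α L q h s v) + d')) *
      D.indicator (fun _ => (1 : ℝ)) (mb α L q h s v + q * x₀)| ≤ 16 * C * (L : ℝ) ^ 2 * R := by
  classical
  have hL' : (0 : ℝ) < L := by exact_mod_cast hL
  have hR' : (0 : ℝ) < R := by linarith
  refine (Finset.abs_sum_le_sum_abs _ _).trans ?_
  set F := (boxZ B).filter (fun v => ‖mdb L q η κ (bb L q h s) v‖ ≤ R + C + 2) with hF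
  have hterm : ∀ v ∈ boxZ B, |(bump R (md α L q h η κ s v) -
        bump R (ρ' * md α L q h η κ s v + Complex.I * (κ' : ℂ) * (ρ' * mb α L q h s v) + d')) *
      D.indicator (fun _ => (1 : ℝ)) (mb α L q h s v + q * x₀)| ≤
      if v ∈ F then C / R else 0 := by
    intro v hv
    rw [add_assoc (ρ' * md α L q h η κ s v)]
    by_cases hD : mb α L q h s v + q * x₀ ∈ D
    · rw [indicator_of_mem hD, mul_one]
      have he := hDC v hD
      by_cases hvF : v ∈ F
      · rw [if_pos hvF]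
        refine (term_le hR' hρ' _ _).trans ?_
        gcongr
      · rw [if_neg hvF]
        have h1 : (R : ℝ) + C + 2 < ‖mdb L q η κ (bb L q h s) v‖ := by
          by_contra h2
          push Not at h2
          exact hvF (by rw [hF, Finset.mem_filter]; exact ⟨hv, h2⟩)
        have h2 := md_sub α hL hq h η κ s v
        have h3 : |κ| / L ≤ 1 := by rw [div_le_one hL']; exact hκ
        have h4 : ‖mdb L q η κ (bb L q h s) v‖ ≤ ‖md α L q h η κ s v‖ + |κ| / L := by
          have := norm_sub_norm_le (mdb L q η κ (bb L q h s) v) (md α L q h η κ s v)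
          rw [norm_sub_rev] at this
          linarith
        rw [term_zero hR' hρ' (by linarith), abs_zero]
    · rw [indicator_of_notMem hD, mul_zero, abs_zero]
      split_ifs
      · positivity
      · exact le_refl _
  calc ∑ v ∈ boxZ B, _ ≤ ∑ v ∈ boxZ B, if v ∈ F then C / (R : ℝ) else 0 := Finset.sum_le_sum hterm
    _ ≤ F.card * (C / R) := by
        rw [← Finset.sum_filter, Finset.sum_const, nsmul_eq_mul]
        gcongr
        intro v hv
        exact (Finset.mem_filter.1 hv).2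
    _ ≤ (16 * (L : ℝ) ^ 2 * R ^ 2) * (C / R) := by
        gcongr
        apply card_v hL hq η κ (bb L q h s) hC hR
        intro v hv
        exact (Finset.mem_filter.1 hv).2
    _ = 16 * C * (L : ℝ) ^ 2 * R := by field_simp

/-- fine bound for one cell whose base point is in the set -/
theorem inner_good (α : ℝ) {ρ' : ℂ} (hρ' : ‖ρ'‖ = 1) (d' : ℂ) (κ' : ℝ) {C : ℝ}
    (hC : 0 ≤ C) {R L : ℕ} (hL : 1 ≤ L) (hR : C + 3 ≤ R) {κ : ℝ} (hκ : |κ| ≤ L) {q : ℂ}
    (hq : ‖q‖ = 1) (h η : ℂ) (s : ℤ × ℤ)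
    (hDC : ∀ v, ‖Complex.I * (κ' : ℂ) * (ρ' * mb α L q h s v) + d'‖ ≤ C)
    (hDC' : ‖Complex.I * (κ' : ℂ) * (ρ' * bb L q h s) + d'‖ ≤ C) (B : ℕ)
    (hB : (L : ℝ) * (R + (‖η‖ + |κ| * ‖bb L q h s‖ + C)) ≤ B) :
    |∑ v ∈ boxZ B, (bump R (md α L q h η κ s v) -
        bump R (ρ' * md α L q h η κ s v + Complex.I * (κ' : ℂ) * (ρ' * mb α L q h s v) + d'))| ≤
      16 * L * R * (2 * |κ| + |κ'|) + 25 * R * L := by
  classical
  have hL' : (0 : ℝ) < L := by exact_mod_cast hL
  have hR' : (0 : ℝ) < R := by linarith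
  have hR1 : 1 ≤ R := by
    have : (0 : ℝ) < R := hR'
    exact_mod_cast this
  have hq0 : q ≠ 0 := by
    intro h0; rw [h0, norm_zero] at hq; norm_num at hq
  have hρ0 : ρ' ≠ 0 := by
    intro h0; rw [h0, norm_zero] at hρ'; norm_num at hρ'
  set b' := bb L q h s with hb'
  set e' := Complex.I * (κ' : ℂ) * (ρ' * b') + d' with he'
  -- comparison with the base point
  set F := (boxZ B).filter (fun v => ‖mdb L q η κ b' v‖ ≤ R + C + 2) with hF
  have hterm : ∀ v ∈ boxZ B, |(bump R (md α L q h η κ s v) -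
        bump R (ρ' * md α L q h η κ s v + Complex.I * (κ' : ℂ) * (ρ' * mb α L q h s v) + d')) -
        (bump R (mdb L q η κ b' v) - bump R (ρ' * mdb L q η κ b' v + e'))| ≤
      if v ∈ F then (2 * |κ| + |κ'|) / (L * R) else 0 := by
    intro v hv
    have h2 := md_sub α hL hq h η κ s v
    have h3 : |κ| / L ≤ 1 := by rw [div_le_one hL']; exact hκ
    by_cases hvF : v ∈ F
    · rw [if_pos hvF]
      have h4 := bump_sub_le' hR' (md α L q h η κ s v) (mdb L q η κ b' v)
      have h5 := bump_sub_le' hR' (ρ' * md α L q h η κ s v +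
        Complex.I * (κ' : ℂ) * (ρ' * mb α L q h s v) + d') (ρ' * mdb L q η κ b' v + e')
      have h6 : ‖ρ' * md α L q h η κ s v + Complex.I * (κ' : ℂ) * (ρ' * mb α L q h s v) + d' -
          (ρ' * mdb L q η κ b' v + e')‖ ≤ |κ| / L + |κ'| / L := by
        have : ρ' * md α L q h η κ s v + Complex.I * (κ' : ℂ) * (ρ' * mb α L q h s v) + d' -
          (ρ' * mdb L q η κ b' v + e') = ρ' * (md α L q h η κ s v - mdb L q η κ b' v) +
          Complex.I * (κ' : ℂ) * (ρ' * (mb α L q h s v - b')) := by rw [he']; ring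
        rw [this]
        refine (norm_add_le _ _).trans ?_
        rw [norm_mul, hρ', one_mul, norm_mul, norm_mul, norm_mul, hρ', one_mul, Complex.norm_I,
          one_mul, Complex.norm_real, Real.norm_eq_abs]
        have h7 := mb_sub_bb α hL hq h s v
        have h8 : |κ'| * ‖mb α L q h s v - b'‖ ≤ |κ'| * (1 / L) := by gcongr
        have h9 : |κ'| * (1 / (L : ℝ)) = |κ'| / L := by ring
        linarith
      have h10 : |(bump R (md α L q h η κ s v) -
        bump R (ρ' * md α L q h η κ s v + Complex.I * (κ' : ℂ) * (ρ' * mb α L q h s v) + d')) -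
        (bump R (mdb L q η κ b' v) - bump R (ρ' * mdb L q η κ b' v + e'))| ≤
          |bump R (md α L q h η κ s v) - bump R (mdb L q η κ b' v)| +
          |bump R (ρ' * md α L q h η κ s v + Complex.I * (κ' : ℂ) * (ρ' * mb α L q h s v) + d') -
            bump R (ρ' * mdb L q η κ b' v + e')| := by
        rw [sub_sub_sub_comm]
        exact abs_sub _ _
      refine h10.trans ((add_le_add h4 h5).trans ?_)
      calc ‖md α L q h η κ s v - mdb L q η κ b' v‖ / (R : ℝ) +
          ‖ρ' * md α L q h η κ s v + Complex.I * (κ' : ℂ) * (ρ' * mb α L q h s v) + d' -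
          (ρ' * mdb L q η κ b' v + e')‖ / (R : ℝ) ≤ (|κ| / L) / R + (|κ| / L + |κ'| / L) / R := by
            gcongr
        _ = (2 * |κ| + |κ'|) / (L * R) := by field_simp; ring
    · rw [if_neg hvF]
      have h1 : (R : ℝ) + C + 2 < ‖mdb L q η κ b' v‖ := by
        by_contra h2
        push Not at h2
        exact hvF (by rw [hF, Finset.mem_filter]; exact ⟨hv, h2⟩)
      have h4 : ‖mdb L q η κ b' v‖ ≤ ‖md α L q h η κ s v‖ + |κ| / L := by
        have := norm_sub_norm_le (mdb L q η κ b' v) (md α L q h η κ s v)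
        rw [norm_sub_rev] at this
        linarith
      rw [add_assoc (ρ' * md α L q h η κ s v)]
      rw [term_zero hR' hρ' (by linarith [hDC v]), term_zero hR' hρ' (by linarith)]
      simp
  have hsum1 : |∑ v ∈ boxZ B, ((bump R (md α L q h η κ s v) -
        bump R (ρ' * md α L q h η κ s v + Complex.I * (κ' : ℂ) * (ρ' * mb α L q h s v) + d')) -
        (bump R (mdb L q η κ b' v) - bump R (ρ' * mdb L q η κ b' v + e')))| ≤
      16 * L * R * (2 * |κ| + |κ'|) := by
    refine (Finset.abs_sum_le_sum_abs _ _).trans ?_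
    calc ∑ v ∈ boxZ B, _ ≤ ∑ v ∈ boxZ B, if v ∈ F then (2 * |κ| + |κ'|) / ((L : ℝ) * R) else 0 :=
          Finset.sum_le_sum hterm
      _ ≤ F.card * ((2 * |κ| + |κ'|) / (L * R)) := by
          rw [← Finset.sum_filter, Finset.sum_const, nsmul_eq_mul]
          gcongr
          intro v hv
          exact (Finset.mem_filter.1 hv).2
      _ ≤ (16 * (L : ℝ) ^ 2 * R ^ 2) * ((2 * |κ| + |κ'|) / (L * R)) := by
          gcongr
          apply card_v hL hq η κ b' hC hR
          intro v hv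
          exact (Finset.mem_filter.1 hv).2
      _ = 16 * L * R * (2 * |κ| + |κ'|) := by field_simp
  -- lattice sums
  set t := η + q⁻¹ * (Complex.I * (κ : ℂ) * b') with ht
  have hsum2 : |∑ v ∈ boxZ B, (bump R (mdb L q η κ b' v) -
      bump R (ρ' * mdb L q η κ b' v + e'))| ≤ 25 * R * L := by
    have h1 : ∀ v, bump R (mdb L q η κ b' v) = bump R (gi v / (L : ℂ) + t) := by
      intro v
      rw [mdb_eq L hq, bump_unit_mul hq]
    have h2 : ∀ v, bump R (ρ' * mdb L q η κ b' v + e') =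
        bump R (gi v / (L : ℂ) + (t + (ρ' * q)⁻¹ * e')) := by
      intro v
      rw [mdb_eq L hq]
      have h3 : ρ' * (q * (gi v / (L : ℂ) + (η + q⁻¹ * (Complex.I * (κ : ℂ) * b')))) + e' =
          (ρ' * q) * (gi v / (L : ℂ) + (t + (ρ' * q)⁻¹ * e')) := by
        rw [ht]
        field_simp
        ring
      rw [h3, bump_unit_mul (by rw [norm_mul, hρ', hq, one_mul])]
    simp_rw [h1, h2]
    rw [Finset.sum_sub_distrib]
    have hnt : ‖t‖ ≤ ‖η‖ + |κ| * ‖b'‖ := by
      rw [ht]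
      refine (norm_add_le _ _).trans ?_
      rw [norm_mul, norm_inv, hq, inv_one, one_mul, norm_mul, norm_mul, Complex.norm_I, one_mul,
        Complex.norm_real, Real.norm_eq_abs]
    have hnt' : ‖t + (ρ' * q)⁻¹ * e'‖ ≤ ‖η‖ + |κ| * ‖b'‖ + C := by
      refine (norm_add_le _ _).trans ?_
      have : ‖(ρ' * q)⁻¹ * e'‖ = ‖e'‖ := by
        rw [norm_mul, norm_inv, norm_mul, hρ', hq, one_mul, inv_one, one_mul]
      rw [this]
      linarith
    apply bump_shift' hR1 hL
    · refine le_trans ?_ hB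
      gcongr
      linarith
    · refine le_trans ?_ hB
      gcongr
  have hfin : ∑ v ∈ boxZ B, (bump R (md α L q h η κ s v) -
        bump R (ρ' * md α L q h η κ s v + Complex.I * (κ' : ℂ) * (ρ' * mb α L q h s v) + d')) =
      ∑ v ∈ boxZ B, ((bump R (md α L q h η κ s v) -
        bump R (ρ' * md α L q h η κ s v + Complex.I * (κ' : ℂ) * (ρ' * mb α L q h s v) + d')) -
        (bump R (mdb L q η κ b' v) - bump R (ρ' * mdb L q η κ b' v + e'))) +
      ∑ v ∈ boxZ B, (bump R (mdb L q η κ b' v) - bump R (ρ' * mdb L q η κ b' v + e')) := by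
    rw [← Finset.sum_add_distrib]
    apply Finset.sum_congr rfl
    intro v _
    ring
  rw [hfin]
  exact (abs_add_le _ _).trans (add_le_add hsum1 hsum2)

theorem mesh_fine (α : ℝ) (D : Set ℂ) (hD : Bornology.IsBounded D)
    (hDf : volume (frontier D) = 0) (ρ' d' : ℂ) (hρ' : ‖ρ'‖ = 1) (κ' ε : ℝ) (hε : 0 < ε) :
    ∃ n₀ : ℕ, ∀ R L : ℕ, n₀ ≤ R → n₀ ≤ L → ∀ κ : ℝ, n₀ * |κ| ≤ L → ∀ q h η : ℂ, ‖q‖ = 1 →
      ∃ B₀ : ℕ, ∀ B : ℕ, B₀ ≤ B → ∀ x₀ : ℂ, ‖x₀‖ ≤ 1 →
        |∑ s ∈ boxZ B, ∑ v ∈ boxZ B, (bump R (md α L q h η κ s v) -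
            bump R (ρ' * md α L q h η κ s v + Complex.I * (κ' : ℂ) * (ρ' * mb α L q h s v) + d')) *
          D.indicator (fun _ => (1 : ℝ)) (mb α L q h s v + q * x₀)| ≤ ε * R * (L : ℝ) ^ 4 := by
  classical
  obtain ⟨R0, hR0⟩ := hD.exists_norm_le
  set P := |R0| + 2 with hP
  have hPpos : 0 < P := by positivity
  have hR0' : ∀ y ∈ D, ‖y‖ ≤ |R0| := fun y hy => (hR0 y hy).trans (le_abs_self R0)
  set C := |κ'| * P + ‖d'‖ with hC
  have hC0 : 0 ≤ C := by positivity
  have hCb : ∀ b : ℂ, ‖b‖ ≤ P → ‖Complex.I * (κ' : ℂ) * (ρ' * b) + d'‖ ≤ C := by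
    intro b hb
    refine (norm_add_le _ _).trans ?_
    rw [norm_mul, norm_mul, norm_mul, hρ', one_mul, Complex.norm_I, one_mul, Complex.norm_real,
      Real.norm_eq_abs, hC]
    gcongr
  -- the frontier is compact
  have hfc : IsCompact (frontier D) :=
    Metric.isCompact_of_isClosed_isBounded isClosed_frontier
      (hD.closure.subset frontier_subset_closure)
  obtain ⟨n₁, hn₁⟩ := exists_card_bad hfc hDf (μ := ε / (32 * (C + 1))) (by positivity)
  obtain ⟨n₂, hn₂⟩ := exists_nat_ge (8 * (P + 1) ^ 2 * (57 + 16 * |κ'|) / ε)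
  obtain ⟨n₃, hn₃⟩ := exists_nat_ge (C + 3)
  refine ⟨n₁ + n₂ + n₃ + 1, fun R L hR hL κ hκ q h η hq => ?_⟩
  have hL1 : 1 ≤ L := by omega
  have hLn : (1 : ℝ) ≤ L := by exact_mod_cast hL1
  have hL' : (0 : ℝ) < L := by linarith
  have hR1 : 1 ≤ R := by omega
  have hR' : (0 : ℝ) < R := by exact_mod_cast hR1
  have hRC : C + 3 ≤ R := by
    refine hn₃.trans ?_
    exact_mod_cast (by omega : n₃ ≤ R)
  have hκL : |κ| ≤ L := by
    refine le_trans ?_ hκ
    have : (1 : ℝ) ≤ ((n₁ + n₂ + n₃ + 1 : ℕ) : ℝ) := by exact_mod_cast (by omega)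
    nlinarith [abs_nonneg κ]
  obtain ⟨B₀, hB₀⟩ := exists_nat_ge ((L : ℝ) * (R + (‖η‖ + |κ| * P + C)))
  refine ⟨B₀, fun B hB x₀ hx₀ => ?_⟩
  have hBB : (L : ℝ) * (R + (‖η‖ + |κ| * P + C)) ≤ B := by
    refine hB₀.trans ?_
    exact_mod_cast hB
  have hqx : ‖q * x₀‖ ≤ 1 := by rw [norm_mul, hq, one_mul]; exact hx₀
  have h1L : 1 / (L : ℝ) ≤ 1 := by rw [div_le_one hL']; exact hLn
  -- the inner sums
  set T : ℤ × ℤ → ℝ := fun s => ∑ v ∈ boxZ B, (bump R (md α L q h η κ s v) -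
            bump R (ρ' * md α L q h η κ s v + Complex.I * (κ' : ℂ) * (ρ' * mb α L q h s v) + d')) *
          D.indicator (fun _ => (1 : ℝ)) (mb α L q h s v + q * x₀) with hT
  set bad := (boxZ B).filter (fun s => ∃ z ∈ frontier D, ‖bb L q h s + q * x₀ - z‖ ≤ 1 / L)
    with hbad
  set near := (boxZ B).filter (fun s => ‖bb L q h s‖ ≤ P) with hnear
  have hbadcard : (bad.card : ℝ) ≤ ε / (32 * (C + 1)) * (L : ℝ) ^ 2 := by
    apply hn₁ L (by omega) q hq h x₀
    intro s hs
    exact (Finset.mem_filter.1 hs).2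
  have hnearcard : (near.card : ℝ) ≤ 4 * (L : ℝ) ^ 2 * (P + 1) ^ 2 := by
    have hLc : (L : ℂ) ≠ 0 := by exact_mod_cast hL'.ne'
    have h1 := card_near ((L : ℂ) * h) (L * P) (by positivity) near (by
      intro s hs
      have h2 := (Finset.mem_filter.1 hs).2
      have h3 : gi s + (L : ℂ) * h = (L : ℂ) * (h + gi s / (L : ℂ)) := by field_simp; ring
      rw [h3, norm_mul, Complex.norm_natCast]
      unfold bb at h2
      rw [norm_mul, hq, one_mul] at h2
      gcongr)
    refine h1.trans ?_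
    calc (2 * ((L : ℝ) * P) + 1) ^ 2 ≤ (2 * L * (P + 1)) ^ 2 := by
          gcongr
          nlinarith
      _ = 4 * (L : ℝ) ^ 2 * (P + 1) ^ 2 := by ring
  have hbnorm : ∀ s v, mb α L q h s v + q * x₀ ∈ D → ‖mb α L q h s v‖ ≤ |R0| + 1 := by
    intro s v hsv
    have h1 := hR0' _ hsv
    have h2 : mb α L q h s v = (mb α L q h s v + q * x₀) - q * x₀ := by ring
    rw [h2]
    refine (norm_sub_le _ _).trans ?_
    linarith
  have hTb : ∀ s ∈ boxZ B, |T s| ≤
      (if s ∈ bad then 16 * C * (L : ℝ) ^ 2 * R else 0) +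
      (if s ∈ near then 16 * L * R * (2 * |κ| + |κ'|) + 25 * R * L else 0) := by
    intro s hs
    have hpos2 : 0 ≤ (if s ∈ near then 16 * (L : ℝ) * R * (2 * |κ| + |κ'|) + 25 * R * L else 0) := by
      split_ifs <;> positivity
    by_cases hsb : s ∈ bad
    · rw [if_pos hsb]
      have h1 : |T s| ≤ 16 * C * (L : ℝ) ^ 2 * R := by
        rw [hT]
        apply inner_bad α D hρ' d' κ' hC0 hL1 hRC hκL hq h η x₀ s
        intro v hv
        apply hCb
        have := hbnorm s v hv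
        linarith
      linarith
    · rw [if_neg hsb, zero_add]
      have hfar : ∀ z ∈ frontier D, 1 / (L : ℝ) < ‖bb L q h s + q * x₀ - z‖ := by
        intro z hz
        by_contra hcon
        push Not at hcon
        apply hsb
        rw [hbad, Finset.mem_filter]
        exact ⟨hs, z, hz, hcon⟩
      have hind : ∀ v, D.indicator (fun _ => (1 : ℝ)) (mb α L q h s v + q * x₀) =
          D.indicator (fun _ => (1 : ℝ)) (bb L q h s + q * x₀) := by
        intro v
        apply indicator_const (r := 1 / L) _ hfar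
        have h1 : bb L q h s + q * x₀ - (mb α L q h s v + q * x₀) =
            -(mb α L q h s v - bb L q h s) := by ring
        rw [h1, norm_neg]
        exact mb_sub_bb α hL1 hq h s v
      have hTs : T s = (∑ v ∈ boxZ B, (bump R (md α L q h η κ s v) -
            bump R (ρ' * md α L q h η κ s v + Complex.I * (κ' : ℂ) * (ρ' * mb α L q h s v) + d'))) *
            D.indicator (fun _ => (1 : ℝ)) (bb L q h s + q * x₀) := by
        rw [hT, Finset.sum_mul]
        apply Finset.sum_congr rfl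
        intro v _
        rw [hind v]
      by_cases hDs : bb L q h s + q * x₀ ∈ D
      · rw [indicator_of_mem hDs, mul_one] at hTs
        have hbn : ‖bb L q h s‖ ≤ |R0| + 1 := by
          have h1 := hR0' _ hDs
          have h2 : bb L q h s = (bb L q h s + q * x₀) - q * x₀ := by ring
          rw [h2]
          refine (norm_sub_le _ _).trans ?_
          linarith
        have hsn : s ∈ near := by
          rw [hnear, Finset.mem_filter]
          exact ⟨hs, by linarith⟩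
        rw [if_pos hsn, hTs]
        apply inner_good α hρ' d' κ' hC0 hL1 hRC hκL hq h η s
        · intro v
          apply hCb
          have h1 := mb_sub_bb α hL1 hq h s v
          have h2 := norm_sub_norm_le (mb α L q h s v) (bb L q h s)
          linarith
        · apply hCb
          linarith
        · refine le_trans ?_ hBB
          gcongr
          linarith
      · rw [indicator_of_notMem hDs, mul_zero] at hTs
        rw [hTs, abs_zero]
        exact hpos2
  calc |∑ s ∈ boxZ B, T s| ≤ ∑ s ∈ boxZ B, |T s| := Finset.abs_sum_le_sum_abs _ _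
    _ ≤ ∑ s ∈ boxZ B, ((if s ∈ bad then 16 * C * (L : ℝ) ^ 2 * R else 0) +
      (if s ∈ near then 16 * L * R * (2 * |κ| + |κ'|) + 25 * R * L else 0)) :=
        Finset.sum_le_sum hTb
    _ ≤ bad.card * (16 * C * (L : ℝ) ^ 2 * R) +
        near.card * (16 * L * R * (2 * |κ| + |κ'|) + 25 * R * L) := by
        rw [Finset.sum_add_distrib, ← Finset.sum_filter, ← Finset.sum_filter, Finset.sum_const,
          Finset.sum_const, nsmul_eq_mul, nsmul_eq_mul]
        gcongr
        · intro v hv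
          exact (Finset.mem_filter.1 hv).2
        · intro v hv
          exact (Finset.mem_filter.1 hv).2
    _ ≤ (ε / (32 * (C + 1)) * (L : ℝ) ^ 2) * (16 * C * (L : ℝ) ^ 2 * R) +
        (4 * (L : ℝ) ^ 2 * (P + 1) ^ 2) * (16 * L * R * (2 * |κ| + |κ'|) + 25 * R * L) := by
        gcongr
    _ ≤ ε / 2 * R * (L : ℝ) ^ 4 + ε / 2 * R * (L : ℝ) ^ 4 := by
        apply add_le_add
        · have h1 : ε / (32 * (C + 1)) * (L : ℝ) ^ 2 * (16 * C * (L : ℝ) ^ 2 * R) =
              (C / (C + 1)) * (ε / 2 * R * (L : ℝ) ^ 4) := by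
            field_simp; ring
          rw [h1]
          have h2 : C / (C + 1) ≤ 1 := by rw [div_le_one (by positivity)]; linarith
          have h3 : 0 ≤ ε / 2 * R * (L : ℝ) ^ 4 := by positivity
          nlinarith
        · set N : ℝ := ((n₁ + n₂ + n₃ + 1 : ℕ) : ℝ) with hN
          have hNpos : 1 ≤ N := by rw [hN]; exact_mod_cast (by omega)
          have hNL : N ≤ L := by rw [hN]; exact_mod_cast hL
          have hNε : 8 * (P + 1) ^ 2 * (57 + 16 * |κ'|) ≤ N * ε := by
            rw [div_le_iff₀ hε] at hn₂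
            refine hn₂.trans ?_
            gcongr
            rw [hN]; exact_mod_cast (by omega)
          -- everything in terms of `L / N`
          have h1 : 1 ≤ (L : ℝ) / N := by rw [le_div_iff₀ (by linarith)]; linarith
          have h2 : |κ| ≤ L / N := by
            rw [le_div_iff₀ (by linarith), mul_comm]; exact hκ
          have h3 : 16 * (L : ℝ) * R * (2 * |κ| + |κ'|) + 25 * R * L ≤
              L * R * ((57 + 16 * |κ'|) * (L / N)) := by
            have h4 : 16 * (2 * |κ| + |κ'|) + 25 ≤ (57 + 16 * |κ'|) * (L / N) := by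
              nlinarith [abs_nonneg κ', abs_nonneg κ]
            calc 16 * (L : ℝ) * R * (2 * |κ| + |κ'|) + 25 * R * L =
                L * R * (16 * (2 * |κ| + |κ'|) + 25) := by ring
              _ ≤ L * R * ((57 + 16 * |κ'|) * (L / N)) := by gcongr
          calc 4 * (L : ℝ) ^ 2 * (P + 1) ^ 2 * (16 * L * R * (2 * |κ| + |κ'|) + 25 * R * L)
              ≤ 4 * (L : ℝ) ^ 2 * (P + 1) ^ 2 * (L * R * ((57 + 16 * |κ'|) * (L / N))) := by gcongr
            _ = (8 * (P + 1) ^ 2 * (57 + 16 * |κ'|)) / N * (1 / 2 * R * (L : ℝ) ^ 4) := by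
                field_simp; ring
            _ ≤ (N * ε) / N * (1 / 2 * R * (L : ℝ) ^ 4) := by gcongr
            _ = ε / 2 * R * (L : ℝ) ^ 4 := by field_simp
    _ = ε * R * (L : ℝ) ^ 4 := by ring

end GB
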