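import Pool.Agent.Helper63.GB2.Defs

open Set MeasureTheory Filter Topology

namespace GB

/-- lattice points near a point -/
theorem card_near (w : ℂ) (r : ℝ) (hr : 0 ≤ r) (F : Finset (ℤ × ℤ))
    (h : ∀ v ∈ F, ‖gi v + w‖ ≤ r) : (F.card : ℝ) ≤ (2 * r + 1) ^ 2 := by
  classical
  set G : Finset (ℤ × ℤ) := Finset.Icc ⌈-w.re - r⌉ ⌊-w.re + r⌋ ×ˢ Finset.Icc ⌈-w.im - r⌉ ⌊-w.im + r⌋
    with hG
  have hsub : F ⊆ G := by
    intro v hv
    have h1 := h v hv
    have hre := (Complex.abs_re_le_norm (gi v + w)).trans h1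
    have him := (Complex.abs_im_le_norm (gi v + w)).trans h1
    simp only [gi, Complex.add_re, Complex.add_im, abs_le] at hre him
    simp only [hG, Finset.mem_product, Finset.mem_Icc, Int.ceil_le, Int.le_floor]
    refine ⟨⟨?_, ?_⟩, ?_, ?_⟩ <;> linarith
  have hcard : (F.card : ℝ) ≤ G.card := by exact_mod_cast Finset.card_le_card hsub
  have hI : ∀ a : ℝ, ((Finset.Icc ⌈a - r⌉ ⌊a + r⌋).card : ℝ) ≤ 2 * r + 1 := by
    intro a
    rw [Int.card_Icc]
    rcases le_total 0 (⌊a + r⌋ + 1 - ⌈a - r⌉) with h0 | h0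
    · have : (((⌊a + r⌋ + 1 - ⌈a - r⌉).toNat : ℕ) : ℝ) = ((⌊a + r⌋ + 1 - ⌈a - r⌉ : ℤ) : ℝ) := by
        have := Int.toNat_of_nonneg h0
        exact_mod_cast congrArg (fun z : ℤ => (z : ℝ)) this
      rw [this]
      push_cast
      have h1 := Int.floor_le (a + r)
      have h2 := Int.le_ceil (a - r)
      linarith
    · rw [Int.toNat_of_nonpos h0]
      simp
      linarith
  have hprod : (G.card : ℝ) ≤ (2 * r + 1) * (2 * r + 1) := by
    rw [hG, Finset.card_product]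
    push_cast
    apply mul_le_mul (hI _) (hI _) (by positivity) (by linarith)
  calc (F.card : ℝ) ≤ G.card := hcard
    _ ≤ (2 * r + 1) * (2 * r + 1) := hprod
    _ = (2 * r + 1) ^ 2 := by ring

theorem bump_nonneg' (R : ℝ) (D : ℂ) : 0 ≤ bump R D := le_max_left _ _

theorem bump_eq_zero {R : ℝ} (hR : 0 < R) {D : ℂ} (h : R ≤ ‖D‖) : bump R D = 0 := by
  unfold bump
  apply max_eq_left
  have : 1 ≤ ‖D‖ / R := (one_le_div hR).2 h
  linarith

theorem bump_sub_le {R : ℝ} (hR : 0 < R) (D D' : ℂ) :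
    |bump R D - bump R D'| ≤ |‖D‖ - ‖D'‖| / R := by
  unfold bump
  have h1 := abs_max_sub_max_le_max 0 (1 - ‖D‖ / R) 0 (1 - ‖D'‖ / R)
  refine h1.trans ?_
  rw [sub_self, abs_zero]
  refine max_le (by positivity) ?_
  have : 1 - ‖D‖ / R - (1 - ‖D'‖ / R) = -((‖D‖ - ‖D'‖) / R) := by ring
  rw [this, abs_neg, abs_div, abs_of_pos hR]

theorem bump_sub_le' {R : ℝ} (hR : 0 < R) (D D' : ℂ) :
    |bump R D - bump R D'| ≤ ‖D - D'‖ / R := by
  refine (bump_sub_le hR D D').trans ?_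
  gcongr
  exact abs_norm_sub_norm_le D D'

theorem gi_add (v w : ℤ × ℤ) : gi (v + w) = gi v + gi w := by
  apply Complex.ext <;> simp [gi]

theorem bump_unit_mul {u : ℂ} (hu : ‖u‖ = 1) (R : ℝ) (z : ℂ) : bump R (u * z) = bump R z := by
  unfold bump; rw [norm_mul, hu, one_mul]

theorem mem_boxZ {B : ℕ} {v : ℤ × ℤ} : v ∈ boxZ B ↔ |v.1| ≤ B ∧ |v.2| ≤ B := by
  simp [boxZ, abs_le, Finset.mem_product, Finset.mem_Icc]

theorem mem_boxZ_of_norm {B : ℕ} {v : ℤ × ℤ} (h : ‖gi v‖ ≤ B) : v ∈ boxZ B := by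
  rw [mem_boxZ]
  have h1 := (Complex.abs_re_le_norm (gi v)).trans h
  have h2 := (Complex.abs_im_le_norm (gi v)).trans h
  simp only [gi] at h1 h2
  constructor
  · exact_mod_cast h1
  · exact_mod_cast h2

/-- outside of a large box the bump vanishes -/
theorem bump_out {R L : ℕ} (hR : 1 ≤ R) (hL : 1 ≤ L) (t : ℂ) {B : ℕ}
    (hB : (L : ℝ) * (R + ‖t‖) ≤ B) {v : ℤ × ℤ} (hv : v ∉ boxZ B) :
    bump R (gi v / (L : ℂ) + t) = 0 := by
  have hL' : (0 : ℝ) < L := by exact_mod_cast hL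
  have hR' : (0 : ℝ) < R := by exact_mod_cast hR
  apply bump_eq_zero hR'
  by_contra hcon
  push Not at hcon
  apply hv
  apply mem_boxZ_of_norm
  have h1 : ‖gi v / (L : ℂ)‖ ≤ R + ‖t‖ := by
    have : gi v / (L : ℂ) = (gi v / (L : ℂ) + t) - t := by ring
    rw [this]
    refine (norm_sub_le _ _).trans ?_
    linarith
  rw [norm_div, Complex.norm_natCast, div_le_iff₀ hL'] at h1
  refine h1.trans ?_
  linarith [mul_comm (L : ℝ) (R + ‖t‖)]

theorem bump_sum_eq_tsum {R L : ℕ} (hR : 1 ≤ R) (hL : 1 ≤ L) (t : ℂ) {B : ℕ}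
    (hB : (L : ℝ) * (R + ‖t‖) ≤ B) :
    ∑ v ∈ boxZ B, bump R (gi v / (L : ℂ) + t) = ∑' v, bump R (gi v / (L : ℂ) + t) := by
  rw [tsum_eq_sum]
  intro v hv
  exact bump_out hR hL t hB hv

/-- nearest Gaussian integer -/
theorem exists_gi_near (z : ℂ) : ∃ n : ℤ × ℤ, ‖z - gi n‖ ≤ 1 := by
  refine ⟨(round z.re, round z.im), ?_⟩
  have h1 := abs_sub_round z.re
  have h2 := abs_sub_round z.im
  have h3 : z - gi (round z.re, round z.im) = ((z.re - round z.re : ℝ) : ℂ) +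
      ((z.im - round z.im : ℝ) : ℂ) * Complex.I := by
    apply Complex.ext <;> simp [gi]
  rw [h3]
  refine (norm_add_le _ _).trans ?_
  rw [norm_mul, Complex.norm_I, mul_one, Complex.norm_real, Complex.norm_real, Real.norm_eq_abs,
    Real.norm_eq_abs]
  linarith

theorem bump_shift' {R L : ℕ} (hR : 1 ≤ R) (hL : 1 ≤ L) (t t' : ℂ) {B : ℕ}
    (hB : (L : ℝ) * (R + ‖t‖) ≤ B) (hB' : (L : ℝ) * (R + ‖t'‖) ≤ B) :
    |∑ v ∈ boxZ B, bump R (gi v / (L : ℂ) + t) - ∑ v ∈ boxZ B, bump R (gi v / (L : ℂ) + t')| ≤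
      25 * R * L := by
  classical
  have hL' : (0 : ℝ) < L := by exact_mod_cast hL
  have hR' : (0 : ℝ) < R := by exact_mod_cast hR
  have hLc : (L : ℂ) ≠ 0 := by exact_mod_cast hL'.ne'
  rw [bump_sum_eq_tsum hR hL t hB, bump_sum_eq_tsum hR hL t' hB']
  obtain ⟨n, hn⟩ := exists_gi_near ((L : ℂ) * (t - t'))
  have hn' : ‖t - t' - gi n / (L : ℂ)‖ ≤ 1 / L := by
    have : t - t' - gi n / (L : ℂ) = ((L : ℂ) * (t - t') - gi n) / (L : ℂ) := by
      field_simp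
    rw [this, norm_div, Complex.norm_natCast]
    gcongr
  rw [← (Equiv.addRight n).tsum_eq (fun v => bump R (gi v / (L : ℂ) + t'))]
  -- common finite support
  obtain ⟨B₂, hB₂⟩ := exists_nat_ge ((L : ℝ) * (R + ‖t‖) + L * (R + ‖t'‖) + ‖gi n‖)
  have hs1 : ∀ v ∉ boxZ B₂, bump R (gi v / (L : ℂ) + t) = 0 := by
    intro v hv
    apply bump_out hR hL t _ hv
    have : 0 ≤ (L : ℝ) * (R + ‖t'‖) := by positivity
    linarith [norm_nonneg (gi n)]
  have hs2 : ∀ v ∉ boxZ B₂, bump R (gi ((Equiv.addRight n) v) / (L : ℂ) + t') = 0 := by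
    intro v hv
    rw [Equiv.coe_addRight]
    by_contra hcon
    apply hv
    apply mem_boxZ_of_norm
    have h1 : ‖gi (v + n) / (L : ℂ) + t'‖ < R := by
      by_contra h2
      push Not at h2
      exact hcon (bump_eq_zero hR' h2)
    have h2 : ‖gi (v + n) / (L : ℂ)‖ ≤ R + ‖t'‖ := by
      have : gi (v + n) / (L : ℂ) = (gi (v + n) / (L : ℂ) + t') - t' := by ring
      rw [this]
      refine (norm_sub_le _ _).trans ?_
      linarith
    rw [norm_div, Complex.norm_natCast, div_le_iff₀ hL'] at h2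
    have h3 : ‖gi v‖ ≤ ‖gi (v + n)‖ + ‖gi n‖ := by
      have : gi v = gi (v + n) - gi n := by rw [gi_add]; ring
      rw [this]
      exact norm_sub_le _ _
    have h4 : 0 ≤ (L : ℝ) * (R + ‖t‖) := by positivity
    nlinarith
  rw [tsum_eq_sum (s := boxZ B₂) hs1, tsum_eq_sum (s := boxZ B₂) hs2, ← Finset.sum_sub_distrib]
  refine (Finset.abs_sum_le_sum_abs _ _).trans ?_
  set F := (boxZ B₂).filter (fun v => ‖gi v + (L : ℂ) * t‖ ≤ L * (R + 1)) with hF
  have hcardF : (F.card : ℝ) ≤ (2 * (L * (R + 1)) + 1) ^ 2 := by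
    apply card_near ((L : ℂ) * t) _ (by positivity)
    intro v hv
    rw [hF, Finset.mem_filter] at hv
    exact hv.2
  have hterm : ∀ v ∈ boxZ B₂, |bump R (gi v / (L : ℂ) + t) -
      bump R (gi ((Equiv.addRight n) v) / (L : ℂ) + t')| ≤
      if v ∈ F then 1 / ((R : ℝ) * L) else 0 := by
    intro v hv
    have hdiff : ‖(gi v / (L : ℂ) + t) - (gi ((Equiv.addRight n) v) / (L : ℂ) + t')‖ ≤ 1 / L := by
      have : (gi v / (L : ℂ) + t) - (gi ((Equiv.addRight n) v) / (L : ℂ) + t') =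
          t - t' - gi n / (L : ℂ) := by
        rw [Equiv.coe_addRight, gi_add]; ring
      rw [this]; exact hn'
    by_cases hvF : v ∈ F
    · rw [if_pos hvF]
      refine (bump_sub_le' hR' _ _).trans ?_
      calc ‖(gi v / (L : ℂ) + t) - (gi ((Equiv.addRight n) v) / (L : ℂ) + t')‖ / (R : ℝ)
          ≤ (1 / L) / R := by gcongr
        _ = 1 / ((R : ℝ) * L) := by field_simp
    · rw [if_neg hvF]
      have h1 : (R : ℝ) + 1 < ‖gi v / (L : ℂ) + t‖ := by
        have h2 : ¬ ‖gi v + (L : ℂ) * t‖ ≤ L * (R + 1) := by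
          intro h3
          apply hvF
          rw [hF, Finset.mem_filter]
          exact ⟨hv, h3⟩
        push Not at h2
        have h3 : gi v + (L : ℂ) * t = (L : ℂ) * (gi v / (L : ℂ) + t) := by
          field_simp
        rw [h3, norm_mul, Complex.norm_natCast] at h2
        exact lt_of_mul_lt_mul_left h2 hL'.le
      have h1L : 1 / (L : ℝ) ≤ 1 := by
        rw [div_le_one hL']
        exact_mod_cast hL
      have h4 : (R : ℝ) ≤ ‖gi ((Equiv.addRight n) v) / (L : ℂ) + t'‖ := by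
        have h5 := norm_sub_norm_le (gi v / (L : ℂ) + t) (gi ((Equiv.addRight n) v) / (L : ℂ) + t')
        linarith
      rw [bump_eq_zero hR' (by linarith), bump_eq_zero hR' h4]
      simp
  calc ∑ v ∈ boxZ B₂, |bump R (gi v / (L : ℂ) + t) -
        bump R (gi ((Equiv.addRight n) v) / (L : ℂ) + t')|
      ≤ ∑ v ∈ boxZ B₂, if v ∈ F then 1 / ((R : ℝ) * L) else 0 := Finset.sum_le_sum hterm
    _ ≤ F.card * (1 / ((R : ℝ) * L)) := by
        rw [← Finset.sum_filter, Finset.sum_const, nsmul_eq_mul]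
        gcongr
        intro v hv
        exact (Finset.mem_filter.1 hv).2
    _ ≤ (2 * (L * (R + 1)) + 1) ^ 2 * (1 / ((R : ℝ) * L)) := by gcongr
    _ ≤ (5 * L * R) ^ 2 * (1 / ((R : ℝ) * L)) := by
        gcongr
        have h1 : (1 : ℝ) ≤ L := by exact_mod_cast hL
        have h2 : (1 : ℝ) ≤ R := by exact_mod_cast hR
        nlinarith
    _ = 25 * R * L := by field_simp; ring

theorem bump_shift : ∃ C : ℝ, ∀ R L : ℕ, 1 ≤ R → 1 ≤ L → ∀ t t' : ℂ, ∃ B₀ : ℕ, ∀ B : ℕ, B₀ ≤ B →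
    |∑ v ∈ boxZ B, bump R (gi v / (L : ℂ) + t) - ∑ v ∈ boxZ B, bump R (gi v / (L : ℂ) + t')| ≤
      C * R * L := by
  refine ⟨25, fun R L hR hL t t' => ?_⟩
  obtain ⟨B₁, hB₁⟩ := exists_nat_ge ((L : ℝ) * (R + ‖t‖))
  obtain ⟨B₂, hB₂⟩ := exists_nat_ge ((L : ℝ) * (R + ‖t'‖))
  refine ⟨max B₁ B₂, fun B hB => bump_shift' hR hL t t' ?_ ?_⟩
  · refine hB₁.trans ?_
    exact_mod_cast (le_max_left _ _).trans hB
  · refine hB₂.trans ?_
    exact_mod_cast (le_max_right _ _).trans hB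

end GB
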